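import Pool.Agent.Lib.MP_4f3c81_gt.Final
import Pool.Agent.Lib.MP_4f3c81_gt.Inf.All

/-!
# Local linearization of `SL(n, ℝ)`-actions on `(ℝ^m, 0)` for `n < m < 2n - 2`

Every `C^∞` action is `C^∞`-linearizable, and for every finite `k` there is a `C^k` action which
is not `C^k`-linearizable.
-/

open Filter Topology Set Matrix
open scoped ContDiff

namespace Pool.Agent.Results.MP_4f3c81_gt.Classification

/-- The Euclidean space `ℝ^m`. -/
abbrev Rn (m : ℕ) : Type := EuclideanSpace ℝ (Fin m)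

/-- The group `SL(n, ℝ)` with its usual topology. -/
abbrev SL (n : ℕ) : Type := SpecialLinearGroup (Fin n) ℝ

/-- `A` is a `C^k`-action of `SL(n, ℝ)` on `(ℝ^m, 0)`: a group action, continuous as a map
`SL(n, ℝ) × ℝ^m → ℝ^m`, in which every `g` acts by a `C^k` map (hence by a `C^k` diffeomorphism,
the inverse being the map of `g⁻¹`) and which fixes the origin. -/
structure IsCkAction (n m : ℕ) (k : ℕ∞) (A : SL n → Rn m → Rn m) : Prop where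
  one_act : ∀ x, A 1 x = x
  mul_act : ∀ g h x, A (g * h) x = A g (A h x)
  continuous_act : Continuous fun q : SL n × Rn m => A q.1 q.2
  contDiff_act : ∀ g, ContDiff ℝ k (A g)
  fix_zero : ∀ g, A g 0 = 0

/-- The action map is jointly of class `C^k` in `(g, x)`: it is the restriction to
`SL(n, ℝ) × ℝ^m` of a map of class `C^k` on the open set `{M | det M ≠ 0} × ℝ^m`. -/
def IsJointlyCk (n m : ℕ) (k : ℕ∞) (A : SL n → Rn m → Rn m) : Prop :=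
  ∃ B : (Fin n → Fin n → ℝ) × Rn m → Rn m,
    ContDiffOn ℝ k B {q | (Matrix.of q.1).det ≠ 0} ∧
    ∀ (g : SL n) (x : Rn m), A g x = B (fun i j => g.1 i j, x)

/-- `A` is `C^k`-linearizable near `0`: there are open neighbourhoods `V ⊆ U` of `0`, a
neighbourhood `N` of `1` with `N · V ⊆ U`, and a `C^k` diffeomorphism `φ` of `U` onto an open set
with `φ 0 = 0` and `φ (g · x) = D(g · )₀ (φ x)` for `g ∈ N`, `x ∈ V`. -/
def IsCkLinearizable (n m : ℕ) (k : ℕ∞) (A : SL n → Rn m → Rn m) : Prop :=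
  ∃ (U V : Set (Rn m)) (N : Set (SL n)) (φ : OpenPartialHomeomorph (Rn m) (Rn m)),
    IsOpen U ∧ IsOpen V ∧ 0 ∈ V ∧ V ⊆ U ∧ N ∈ 𝓝 (1 : SL n) ∧
    (∀ g ∈ N, ∀ x ∈ V, A g x ∈ U) ∧
    φ.source = U ∧ ContDiffOn ℝ k φ U ∧ ContDiffOn ℝ k φ.symm φ.target ∧ φ 0 = 0 ∧
    ∀ g ∈ N, ∀ x ∈ V, φ (A g x) = fderiv ℝ (A g) 0 (φ x)

/-- finite smoothness: a non-linearizable action -/
theorem finite_part (n m k : ℕ) (hn : 2 ≤ n) (hm : n < m) (hk : 1 ≤ k) :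
    ∃ A : SL n → Rn m → Rn m,
      IsCkAction n m k A ∧ IsJointlyCk n m k A ∧ ¬ IsCkLinearizable n m k A := by
  obtain ⟨n, rfl⟩ : ∃ n', n = n' + 2 := ⟨n - 2, by omega⟩
  obtain ⟨j, rfl⟩ : ∃ j, k = j + 1 := ⟨k - 1, by omega⟩
  obtain ⟨d, rfl⟩ : ∃ d, m = n + 2 + (d + 1) := ⟨m - (n + 2) - 1, by omega⟩
  have hcast : (((j + 1 : ℕ) : ℕ∞) : WithTop ℕ∞) = ((j + 1 : ℕ) : WithTop ℕ∞) := by
    norm_cast
  refine ⟨Pool.Agent.Lib.MP_4f3c81_gt.AA n d j, ⟨?_, ?_, ?_, ?_, ?_⟩,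
    ⟨Pool.Agent.Lib.MP_4f3c81_gt.BB n d j, ?_, ?_⟩, ?_⟩
  · exact Pool.Agent.Lib.MP_4f3c81_gt.AA_one n d j
  · exact Pool.Agent.Lib.MP_4f3c81_gt.AA_mul n d j
  · exact Pool.Agent.Lib.MP_4f3c81_gt.continuous_AA n d j
  · intro g
    rw [hcast]
    exact Pool.Agent.Lib.MP_4f3c81_gt.contDiff_AA n d j g
  · exact Pool.Agent.Lib.MP_4f3c81_gt.AA_zero n d j
  · rw [hcast]
    exact Pool.Agent.Lib.MP_4f3c81_gt.contDiffOn_BB n d j
  · exact Pool.Agent.Lib.MP_4f3c81_gt.AA_eq_BB n d j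
  · rintro ⟨U, V, N, φ, hU, hV, h0V, hVU, hN, -, hsrc, hφ, -, hφ0, heq⟩
    rw [hcast] at hφ
    have hinj : InjOn φ U := by
      rw [← hsrc]; exact φ.injOn
    exact Pool.Agent.Lib.MP_4f3c81_gt.not_lin n d j hU hV h0V hVU hN hφ hinj hφ0 heq

/-- infinite smoothness -/
theorem infinite_part (n m : ℕ) (h1 : n < m) (h2 : m < 2 * n - 2) (A : SL n → Rn m → Rn m)
    (hA : IsCkAction n m ⊤ A) : IsCkLinearizable n m ⊤ A :=
  Pool.Agent.Lib.MP_4f3c81_gt.Inf.glue Pool.Agent.Lib.MP_4f3c81_gt.Inf.all_N4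
    Pool.Agent.Lib.MP_4f3c81_gt.Inf.p_N5 n m h1 h2 A hA.one_act hA.mul_act
    hA.continuous_act hA.contDiff_act hA.fix_zero

/-- For `n < m < 2n - 2` and `k ∈ {1, 2, …, ∞}`: every `C^k`-action of `SL(n, ℝ)` on `(ℝ^m, 0)`
is `C^k`-linearizable if and only if `k = ∞`.  For finite `k ≥ 1` there are counterexamples,
even jointly `C^k` ones, for all `n ≥ 2` and all `m > n`. -/
theorem result :
    (∀ n m : ℕ, n < m → m < 2 * n - 2 → ∀ k : ℕ∞, 1 ≤ k →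
      ((∀ A : SL n → Rn m → Rn m, IsCkAction n m k A → IsCkLinearizable n m k A) ↔ k = ⊤)) ∧
    (∀ n m k : ℕ, 2 ≤ n → n < m → 1 ≤ k → ∃ A : SL n → Rn m → Rn m,
      IsCkAction n m k A ∧ IsJointlyCk n m k A ∧ ¬ IsCkLinearizable n m k A) := by
  refine ⟨fun n m h1 h2 k hk => ⟨fun H => ?_, ?_⟩, finite_part⟩
  · by_contra hne
    obtain ⟨j, rfl⟩ := ENat.ne_top_iff_exists.1 hne
    obtain ⟨A, hA, -, hA'⟩ := finite_part n m j (by omega) h1 (by exact_mod_cast hk)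
    exact hA' (H A hA)
  · rintro rfl A hA
    exact infinite_part n m h1 h2 A hA

end Pool.Agent.Results.MP_4f3c81_gt.Classification
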